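import Mathlib
import Pool.Agent.V1149.AZ.Final

/-!
# MP_f3d5fe_al, Q1: the order of a nonabelian `p`-group is bounded in terms of `anz`
-/

open scoped Classical

noncomputable section

namespace Pool.Agent.Results.MP_f3d5fe_al.OrderBounded

/-- `χ` is (the character of) an irreducible complex representation of `G` -/
def IrrChar {G : Type} [Group G] (χ : G → ℂ) : Prop :=
  ∃ (V : Type) (_ : AddCommGroup V) (_ : Module ℂ V) (_ : FiniteDimensional ℂ V)
    (ρ : Representation ℂ G V), ρ.IsIrreducible ∧ χ = ρ.character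

/-- the number `z(G)` of zero entries of the character table: the pairs `(χ, K)` of an
irreducible character and a conjugacy class such that `χ` vanishes on `K` -/
def zeros (G : Type) [Group G] : ℕ :=
  Nat.card {q : (G → ℂ) × ConjClasses G // IrrChar q.1 ∧ ∀ g, ConjClasses.mk g = q.2 → q.1 g = 0}

/-- `anz(G) = z(G) / k(G)` -/
def anz (G : Type) [Group G] : ℝ := (zeros G : ℝ) / Nat.card (ConjClasses G)

open Pool.Agent.V1149.AZ Pool.Agent.Helper884.IC in
theorem zeros_eq (G : Type) [Group G] [Fintype G] : zeros G = zp G := by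
  rw [zeros, zp, ← Nat.card_eq_finsetCard]
  apply Nat.card_congr
  refine Equiv.subtypeEquivRight fun q => ?_
  rw [Finset.mem_filter, Finset.mem_product, mem_Irr]
  constructor
  · rintro ⟨h1, h2⟩
    refine ⟨⟨h1, Finset.mem_univ _⟩, ?_⟩
    obtain ⟨g, hg⟩ := ConjClasses.mk_surjective q.2
    exact ⟨g, hg, h2 g hg⟩
  · rintro ⟨⟨h1, -⟩, h2⟩
    refine ⟨h1, fun g hg => ?_⟩
    rw [← hg] at h2
    exact (van_mk (IsIrrChar.isClass h1) g).mp h2

/-- **Q1 of MP_f3d5fe_al, answered positively.**  There is a function `f` such that every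
nonabelian finite `p`-group `G`, for every prime `p`, satisfies `|G| ≤ f(anz(G))`. -/
theorem result : ∃ f : ℝ → ℝ, ∀ (p : ℕ), p.Prime → ∀ (G : Type) [Group G] [Finite G],
    IsPGroup p G → (¬ ∀ x y : G, x * y = y * x) → (Nat.card G : ℝ) ≤ f (anz G) := by
  choose f hf using Pool.Agent.V1149.AZ.order_bound
  refine ⟨f, fun p hp G _ _ hG hn => ?_⟩
  have hFG : Fintype G := Fintype.ofFinite G
  refine hf (anz G) p ⟨hp⟩ G inferInstance hFG hG hn ?_
  have hk : (0 : ℝ) < Nat.card (ConjClasses G) := by exact_mod_cast Nat.card_pos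
  rw [← zeros_eq, anz, Pool.Agent.V1149.AZ.ncl, div_mul_cancel₀ _ hk.ne']

end Pool.Agent.Results.MP_f3d5fe_al.OrderBounded
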